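import Pool.Agent.Helper22.SL.Defs

/-!
# T5, block SL: the possible targets before a level
-/

namespace Pool.Agent.Helper88.SL

open Finset Pool.Agent.Helper27.T4 Pool.Agent.Helper29.T4 Pool.Agent.Helper22.HW
  Pool.Agent.Helper22.SL

variable {κ : Type*} [DecidableEq κ] {Mk : κ → ℕ} {P : Pr κ} {I : ℕ} {X Ir : ℕ → ℕ}

/-- the possible targets before the level `r` -/
def tgs (P : Pr κ) (I : ℕ) (X : ℕ → ℕ) (r : ℕ) : Finset ℕ :=
  (range I).biUnion (fun i => AP P X r i)

theorem mem_tgs {r t : ℕ} : t ∈ tgs P I X r ↔ ∃ i < I, t ∈ AP P X r i := by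
  simp [tgs]

theorem L_pos (hP : P.Ok Mk) (r : ℕ) : 0 < P.L r := by
  unfold Pr.L
  refine Nat.mul_pos hP.posL (Finset.prod_pos fun t _ => ?_)
  unfold Pr.Q NN
  exact Finset.prod_pos fun i _ => pow_pos (hP.prime t i).pos _

/-- the ranges increase -/
theorem range_mono (hP : P.Ok Mk) {r : ℕ} (hr : r ≤ P.h) : P.F 0 * P.L0 ≤ P.F r * P.L r := by
  induction r with
  | zero => simp [Pr.L]
  | succ r ih =>
    have h1 := ih (Nat.le_of_succ_le hr)
    have h2 := hP.size r hr
    omega

theorem card_tgs (hP : P.Ok Mk) (hT : Tg P I X Ir) {r : ℕ} (hr : r < P.h) :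
    (tgs P I X r).card ≤ P.q r 0 := by
  classical
  rcases Nat.eq_zero_or_pos I with hI | hI
  · subst hI
    simp [tgs]
  -- the minimal target
  obtain ⟨i0, hi0, hmin⟩ := Finset.exists_min_image (range I) X ⟨0, mem_range.2 hI⟩
  have hL := L_pos hP r
  have hM := hP.posM'
  obtain ⟨f, hf⟩ : P.M' ∣ P.F r := (hP.M'F' r hr.le).trans (hP.F'F r hr.le)
  have hFpos : 0 < P.F r := by
    have h1 := range_mono hP hr.le
    have h2 : 0 < P.F 0 * P.L0 := Nat.mul_pos hP.posF hP.posL
    rcases Nat.eq_zero_or_pos (P.F r) with h | h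
    · rw [h, zero_mul] at h1; omega
    · exact h
  have hfpos : 0 < f := by
    rcases Nat.eq_zero_or_pos f with h | h
    · rw [h, mul_zero] at hf; omega
    · exact h
  set g := P.M' * P.L r with hg
  have hgpos : 0 < g := Nat.mul_pos hM hL
  -- all targets are multiples of g in a window
  have hsub : ∀ t ∈ tgs P I X r, g ∣ t ∧ X i0 < t + 4 * (f * g) ∧ t < X i0 + f * g := by
    intro t ht
    obtain ⟨i, hi, h⟩ := mem_tgs.1 ht
    rw [AP, mem_filter, mem_range] at h
    obtain ⟨h1, h2, _, h4⟩ := h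
    have h5 := hmin i (mem_range.2 hi)
    have h6 := hT.win i hi i0 (mem_range.1 hi0)
    have h7 := range_mono hP hr.le
    have h8 : P.F r * P.L r = f * g := by rw [hf, hg]; ring
    rw [h8] at h4 h7
    exact ⟨h2, by omega, by omega⟩
  have hz := hP.zF r hr
  have hz' : 6 * f < P.q r 0 := by
    rw [hf] at hz
    have : P.M' * (6 * f) < P.M' * P.q r 0 := by
      calc P.M' * (6 * f) = 6 * (P.M' * f) := by ring
        _ < _ := hz
    exact lt_of_mul_lt_mul_left this (Nat.zero_le _)
  -- count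
  have hcard : (tgs P I X r).card ≤ (Finset.Icc ((X i0 + g) / g - 4 * f) ((X i0 + g) / g + f)).card := by
    refine Finset.card_le_card_of_injOn (fun t => t / g) ?_ ?_
    · intro t ht
      obtain ⟨⟨s, rfl⟩, h2, h3⟩ := hsub t ht
      rw [Finset.mem_coe, Finset.mem_Icc]
      simp only
      rw [Nat.mul_div_cancel_left _ hgpos]
      constructor
      · rw [Nat.sub_le_iff_le_add]
        rw [Nat.div_le_iff_le_mul_add_pred hgpos]
        have : g * (s + 4 * f) = g * s + 4 * (f * g) := by ring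
        omega
      · have h4 : g * s < g * ((X i0 + g) / g + f) := by
          have := Nat.lt_div_mul_add hgpos (a := X i0)
          have h5 : (X i0 + g) / g = X i0 / g + 1 := Nat.add_div_right _ hgpos
          rw [h5]
          calc g * s < X i0 + f * g := h3
            _ ≤ (X i0 / g * g + g) + f * g := by omega
            _ = g * (X i0 / g + 1 + f) := by ring
        exact (lt_of_mul_lt_mul_left h4 (Nat.zero_le _)).le
    · intro t ht t' ht' htt
      obtain ⟨⟨s, rfl⟩, _⟩ := hsub t ht
      obtain ⟨⟨s', rfl⟩, _⟩ := hsub t' ht'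
      simp only at htt
      rw [Nat.mul_div_cancel_left _ hgpos, Nat.mul_div_cancel_left _ hgpos] at htt
      rw [htt]
  rw [Nat.card_Icc] at hcard
  omega

end Pool.Agent.Helper88.SL
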