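import Pool.Agent.Helper22.SL.Core
import Pool.Agent.Helper88.SL.Tgs

/-!
# T5, block SL: S14
-/

namespace Pool.Agent.Helper88.SL

open Finset Pool.Agent.Helper27.T4 Pool.Agent.Helper29.T4 Pool.Agent.Helper22.HW
  Pool.Agent.Helper22.SL

variable {κ : Type*} [DecidableEq κ] {Mk : κ → ℕ} {P : Pr κ} {I : ℕ} {X Ir : ℕ → ℕ} {K : Finset κ}

omit [DecidableEq κ] in
/-- the vectors of the data in `CC` are admissible -/
theorem CC_mem {w : κ → ℕ} {r : ℕ} {d : Dt} (hd : d ∈ CC P w I X r) {t : ℕ} (ht : t < r) :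
    (d.2 t).1.1 ∈ P.Y t ∧ (d.2 t).1.2 ∈ P.Y t := by
  classical
  induction r generalizing d with
  | zero => exact absurd ht (Nat.not_lt_zero _)
  | succ r ih =>
    rw [CC, mem_image] at hd
    obtain ⟨q, hq, rfl⟩ := hd
    rw [mem_filter, mem_product] at hq
    simp only
    by_cases h : t = r
    · subst h
      rw [Function.update_self]
      exact ⟨hq.2.y, hq.2.y'⟩
    · rw [Function.update_of_ne h]
      exact ih hq.1.1 (by omega)

theorem prB_of (hP : P.Ok Mk) (hT : Tg P I X Ir) (hMk : ∀ k, 0 < Mk k)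
    (hK : ∀ r < P.h, ∀ i, ∀ y ∈ P.Y r, P.key r i y ∈ K ∧ P.key' r i y ∈ K) (B B' : Finset ℕ)
    {ρ : ℝ} (hρ : 0 ≤ ρ) {r : ℕ} (hr : r < P.h)
    (h1 : Ir r * P.A r * P.pc r ≤ ρ) (m : ℕ)
    (hinv : ∀ (w : κ → ℕ) (d : Dt), d ∈ CC P w I X r → d.1 < I ∧ TT X d r ∈ AP P X r d.1)
    (hcount : ∀ (w : κ → ℕ) (t : ℕ) [DecidablePred fun d : Dt => TT X d r = t],
      (((CC P w I X r).filter (fun d => TT X d r = t)).card : ℝ) ≤
        Ir r * P.A r * P.pc r * P.W r)
    (htr : ∀ (w : κ → ℕ) (x : Dt × (ℕ × ℕ)), Hit P w I X B B' x → ∀ w' : κ → ℕ,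
      (∀ t < P.h, ∀ y ∈ P.Y t, ∀ i : Fin 3, i ≠ 2 → w' (P.key t i y) = w (P.key t i y) ∧
      w' (P.key' t i y) = w (P.key' t i y)) →
      tr r x.1 ∈ CC P w' I X r ∧ TT X (tr r x.1) r = TT X x.1 r) :
    PrG Mk K (Ev P I X B B' m (EvB X r)) ((P.q r 0 : ℕ) * P.W r * ρ ^ (m + 1)) := by
  classical
  set A : Finset (ℕ × Bool) := (range r) ×ˢ univ with hA
  have hWe : ∏ a ∈ A, (MM (P.p a.1) (P.z a.1) ({2} : Finset (Fin 3)) : ℝ) = P.W r := by
    rw [hA, Finset.prod_product, Pr.W]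
    refine Finset.prod_congr rfl fun t _ => ?_
    rw [Fintype.prod_bool, MM, Finset.prod_singleton, Pr.q, sq]
  have hW0 : 0 ≤ P.W r := by
    rw [Pr.W]; exact Finset.prod_nonneg fun _ _ => by positivity
  -- one value of the target
  have key : ∀ t0 ∈ tgs P I X r, PrG Mk K (Ev P I X B B' m
      (fun T => (∀ t < r, KNe t T ∧ KNe' t T) ∧ ∀ x ∈ T, TT X x.1 r = t0))
      (P.W r * ρ ^ (m + 1)) := by
    intro t0 _
    have := prCore (P := P) (K := K) (I := I) (X := X) (B := B) (B' := B') (δ := Dt)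
      hP hMk hK A (fun a ha => by
        rw [hA, mem_product, mem_range] at ha
        exact ha.1.trans hr) (fun _ => {2}) (fun _ => 2)
      (fun a _ i hi => by rw [mem_singleton] at hi; rw [hi]; rfl)
      (fun T => (∀ t < r, KNe t T ∧ KNe' t T) ∧ ∀ x ∈ T, TT X x.1 r = t0)
      (fun T hE x hx y hy hxy a ha => by
        rw [hA, mem_product, mem_range] at ha
        obtain ⟨t, s⟩ := a
        cases s
        · exact (hE.1 t ha.1).1 x hx y hy hxy
        · exact (hE.1 t ha.1).2 x hx y hy hxy)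
      (fun x => tr r x.1) id
      (fun x a ha => by
        rw [hA, mem_product, mem_range] at ha
        simp [vec, cod, tr, ha.1])
      (fun x y h => (congrArg Prod.fst h : (tr r x.1).1 = (tr r y.1).1))
      (fun w => (CC P w I X r).filter (fun d => TT X d r = t0)) hρ
      (fun w => by
        rw [hWe]
        exact (hcount w t0).trans (mul_le_mul_of_nonneg_right h1 hW0))
      (fun w t ht a ha => by
        rw [hA, mem_product, mem_range] at ha
        rw [mem_filter] at ht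
        have := CC_mem ht.1 ha.1
        obtain ⟨t, s⟩ := a
        cases s
        · exact this.1
        · exact this.2) m
      (fun w w' hw T _ hE hTh x hx => by
        obtain ⟨h2, h3⟩ := htr w x (hTh x hx) w' (fun t ht y hy i hi =>
          ⟨hw (t, false) ht y hy i (fun _ => by rwa [mem_singleton]),
            hw (t, true) ht y hy i (fun _ => by rwa [mem_singleton])⟩)
        rw [mem_filter]
        exact ⟨h2, h3.trans (hE.2 x hx)⟩)
    rw [hWe] at this
    exact this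
  have hex := PrG_exists (tgs P I X r) key
  refine PrG_mono ?_ ?_ hex
  · rintro v _ ⟨T, hTc, hTh, hTl, hne, t0, ht0⟩
    obtain ⟨x, hx⟩ : T.Nonempty := by
      rw [← Finset.card_pos, hTc]; exact Nat.succ_pos m
    obtain ⟨h2, h3⟩ := htr _ x (hTh x hx) (ext K v) (fun _ _ _ _ _ _ => ⟨rfl, rfl⟩)
    obtain ⟨h4, h5⟩ := hinv _ _ h2
    rw [h3, ht0 x hx] at h5
    exact ⟨t0, mem_tgs.2 ⟨_, h4, h5⟩, T, hTc, hTh, hTl, hne, ht0⟩
  · rw [Finset.sum_const, nsmul_eq_mul]
    have h6 : ((tgs P I X r).card : ℝ) ≤ ((P.q r 0 : ℕ) : ℝ) := by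
      exact_mod_cast card_tgs hP hT hr
    calc ((tgs P I X r).card : ℝ) * (P.W r * ρ ^ (m + 1))
        ≤ ((P.q r 0 : ℕ) : ℝ) * (P.W r * ρ ^ (m + 1)) :=
          mul_le_mul_of_nonneg_right h6 (mul_nonneg hW0 (pow_nonneg hρ _))
      _ = _ := by ring

end Pool.Agent.Helper88.SL
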